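import Mathlib
import Pool.Agent.Y529.DC.Poly
import Pool.Agent.Helper578.JD.Oracle

/-!
# `IOE(2^(2^n)) ≡_W IOE(2^h)` for all `h` with `2^(n^(1/k)) ≤ h(n) ≤ 2^(n^k)`
-/

set_option autoImplicit false

namespace Pool.Agent.Results.MP_2c929a_lc.PolynomialHeight

open Filter

/-! ### Definitions used in the statement -/

/-- `f` is Turing reducible to `g`. -/
def Red (f g : ℕ → ℕ) : Prop :=
  TuringReducible (fun n => Part.some (f n)) (fun n => Part.some (g n))

/-- Muchnik reducibility: every member of `C` computes a member of `B`. -/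
def LeW (B C : Set (ℕ → ℕ)) : Prop := ∀ g ∈ C, ∃ f ∈ B, Red f g

/-- Muchnik equivalence. -/
def EqW (B C : Set (ℕ → ℕ)) : Prop := LeW B C ∧ LeW C B

/-- The mass problem `IOE(h)`: the functions which are infinitely often equal to each computable
function bounded by `h`. -/
def IOE (h : ℕ → ℕ) : Set (ℕ → ℕ) :=
  {f | ∀ r : ℕ → ℕ, Computable r → (∀ n, r n < h n) → ∃ᶠ n in atTop, f n = r n}

/-! ### Functions and their graphs as oracles -/

section graph

open Pool.Agent.Results.MP_65fbb9_lc.Coincidence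
open Pool.Agent.Helper578.JD Pool.Agent.Helper578.JD.Oracle Pool.Agent.Helper578.JD.Defs

/-- The graph of a function. -/
def gr (g : ℕ → ℕ) : Set ℕ := {m | g m.unpair.1 = m.unpair.2}

theorem orc_eq (A : Set ℕ) : orc A = chi A := by
  classical
  funext n
  unfold orc chi chiN
  congr

theorem fun_le_graph (g : ℕ → ℕ) : TuringReducible (fun n => Part.some (g n)) (orc (gr g)) := by
  rw [orc_eq, turingReducible_fun_iff]
  refine (REIn.mem (f := fun p : ℕ × ℕ => Nat.pair p.1 p.2) (by fun_prop)).of_eq fun p => ?_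
  unfold gr
  simp

theorem graph_le_fun (g : ℕ → ℕ) : TuringReducible (orc (gr g)) (fun n => Part.some (g n)) := by
  classical
  have h0 : ComputableIn {(fun n => Part.some (g n) : ℕ →. ℕ)} g := by
    show RecursiveIn _ _
    exact TuringReducible.refl _
  have h1 : ComputableIn {(fun n => Part.some (g n) : ℕ →. ℕ)}
      (fun m : ℕ => ind (decide (g m.unpair.1 = m.unpair.2))) :=
    cind (ceqN (ci_comp h0 (ci_comp ci_fst ComputableIn.unpair)) (ci_comp ci_snd ComputableIn.unpair))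
  have h2 : orc (gr g) = fun m : ℕ => Part.some (ind (decide (g m.unpair.1 = m.unpair.2))) := by
    funext m
    unfold orc gr ind
    by_cases h : g m.unpair.1 = m.unpair.2 <;> simp [h]
  rw [h2]
  exact h1

theorem leW_of_subset {G H : ℕ → ℕ} (h : DNeq G ⊆ DNeq H) : LeW (IOE H) (IOE G) := by
  intro f hf
  have hA : gr f ∈ DNeq G := ⟨f, fun_le_graph f, hf⟩
  obtain ⟨x, hx, hxy⟩ := h hA
  refine ⟨x, hxy, ?_⟩
  have hx' : TuringReducible (fun n => Part.some (x n)) (orc (gr f)) := hx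
  exact hx'.trans (graph_le_fun f)

theorem eqW_of_eq {G H : ℕ → ℕ} (h : DNeq G = DNeq H) : EqW (IOE G) (IOE H) :=
  ⟨leW_of_subset h.ge, leW_of_subset h.le⟩

end graph

/-- **`IOE(2^(2^n))` and `IOE(2^h)` are Muchnik equivalent for all `h` with
`2^(n^(1/k)) ≤ h(n) ≤ 2^(n^k)`; in particular for the computable function `2^(2^(n^2))`.** -/
theorem result :
    -- all `h` with `2^(n^(1/k)) ≤ h(n) ≤ 2^(n^k)` for almost all `n`
    (∀ (h : ℕ → ℕ) (k : ℕ), 1 ≤ k →
      (∀ᶠ n in atTop, ∀ t : ℕ, t ^ k ≤ n → 2 ^ t ≤ h n) →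
      (∀ᶠ n in atTop, h n ≤ 2 ^ (n ^ k)) →
      EqW (IOE fun n => 2 ^ (2 ^ n)) (IOE fun n => 2 ^ h n)) ∧
    -- the answer to Q1
    ∃ f : ℕ → ℕ, Computable f ∧ (∀ a : ℕ, ∀ᶠ n in atTop, 2 ^ (a ^ n) < f n) ∧
      EqW (IOE fun n => 2 ^ (2 ^ n)) (IOE f) := by
  have part1 : ∀ (h : ℕ → ℕ) (k : ℕ), 1 ≤ k →
      (∀ᶠ n in atTop, ∀ t : ℕ, t ^ k ≤ n → 2 ^ t ≤ h n) →
      (∀ᶠ n in atTop, h n ≤ 2 ^ (n ^ k)) →
      EqW (IOE fun n => 2 ^ (2 ^ n)) (IOE fun n => 2 ^ h n) := by
    intro h k hk h1 h2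
    apply eqW_of_eq
    have e1 := Set.Subset.antisymm (Pool.Agent.Y529.DC.lower hk h1)
      (Pool.Agent.Y529.DC.upper h2)
    have e2 := Set.Subset.antisymm
      (Pool.Agent.Y529.DC.lower (h := fun n => 2 ^ n) (k := 1) le_rfl
        (Eventually.of_forall fun n t ht => Nat.pow_le_pow_right (by norm_num) (by simpa using ht)))
      (Pool.Agent.Y529.DC.upper (h := fun n => 2 ^ n) (k := 1)
        (Eventually.of_forall fun n => by simp))
    rw [e1, e2]
  have part4 : EqW (IOE fun n => 2 ^ (2 ^ n)) (IOE fun n => 2 ^ (2 ^ (n ^ 2))) := by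
    refine part1 (fun n => 2 ^ (n ^ 2)) 2 (by norm_num) ?_ ?_
    · refine Eventually.of_forall fun n t ht => Nat.pow_le_pow_right (by norm_num) ?_
      have h1 : t ≤ t ^ 2 := Nat.le_self_pow (by norm_num) t
      have h2 : n ≤ n ^ 2 := Nat.le_self_pow (by norm_num) n
      omega
    · exact Eventually.of_forall fun n => le_rfl
  refine ⟨part1, fun n => 2 ^ (2 ^ (n ^ 2)), ?_, ?_, part4⟩
  · have h1 : Computable fun n : ℕ => n ^ 2 := by
      refine ((Primrec.nat_mul.comp Primrec.id Primrec.id).to_comp).of_eq fun n => ?_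
      rw [pow_two]; rfl
    have h2 : Computable fun n : ℕ => 2 ^ n :=
      Pool.Agent.Results.MP_65fbb9_lc.Coincidence.computable_of_ci
        (Pool.Agent.Results.MP_65fbb9_lc.Coincidence.cpw 2 ComputableIn.id)
    exact h2.comp (h2.comp h1)
  · intro a
    filter_upwards [eventually_gt_atTop a] with n hn
    refine Nat.pow_lt_pow_right (by norm_num) ?_
    have h1 : a ^ n ≤ (2 ^ a) ^ n := Nat.pow_le_pow_left Nat.lt_two_pow_self.le n
    have h2 : (2 ^ a) ^ n = 2 ^ (a * n) := by rw [pow_mul]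
    have h3 : a * n < n ^ 2 := by
      rw [pow_two]
      exact Nat.mul_lt_mul_of_pos_right hn (by omega)
    calc a ^ n ≤ 2 ^ (a * n) := by rw [← h2]; exact h1
      _ < 2 ^ (n ^ 2) := Nat.pow_lt_pow_right (by norm_num) h3

end Pool.Agent.Results.MP_2c929a_lc.PolynomialHeight
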